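import Mathlib

namespace Pool.Agent.H.MP_467638_an

open MeasureTheory ProbabilityTheory Set Filter Topology Module
open scoped ENNReal InnerProductSpace

section real
variable {E F G : Type} [NormedAddCommGroup E] [InnerProductSpace ℝ E] [FiniteDimensional ℝ E]
  [MeasurableSpace E] [BorelSpace E] [NormedAddCommGroup F] [InnerProductSpace ℝ F]
  [FiniteDimensional ℝ F] [MeasurableSpace F] [BorelSpace F] [NormedAddCommGroup G]
  [InnerProductSpace ℝ G] [FiniteDimensional ℝ G] [MeasurableSpace G] [BorelSpace G]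

lemma g_map {L : E → F} (hL : Measurable L) (M : F → E) (h : ∀ x t, ⟪L x, t⟫_ℝ = ⟪x, M t⟫_ℝ)
    (n : ∀ t, ‖M t‖ = ‖t‖) : MeasurePreserving L (stdGaussian E) (stdGaussian F) := by
  refine ⟨hL, Measure.ext_of_charFun (funext fun t => ?_)⟩
  rw [charFun_stdGaussian, ← n, ← charFun_stdGaussian, charFun_apply, charFun_apply,
    integral_map hL.aemeasurable (by fun_prop)]
  simp only [h]

lemma g_add {L : E × F → G} (hL : Measurable L) (M : G → E) (N : G → F)
    (h : ∀ x t, ⟪L x, t⟫_ℝ = ⟪x.1, M t⟫_ℝ + ⟪x.2, N t⟫_ℝ)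
    (n : ∀ t, ‖M t‖ ^ 2 + ‖N t‖ ^ 2 = ‖t‖ ^ 2) :
    MeasurePreserving L ((stdGaussian E).prod (stdGaussian F)) (stdGaussian G) := by
  refine ⟨hL, Measure.ext_of_charFun (funext fun t => ?_)⟩
  rw [charFun_apply, integral_map hL.aemeasurable (by fun_prop)]
  simp only [h, Complex.ofReal_add, add_mul, Complex.exp_add]
  rw [integral_prod_mul (fun x : E => Complex.exp (⟪x, M t⟫_ℝ * Complex.I))
    fun x : F => Complex.exp (⟪x, N t⟫_ℝ * Complex.I), ← charFun_apply, ← charFun_apply,
    charFun_stdGaussian, charFun_stdGaussian, charFun_stdGaussian, ← Complex.exp_add]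
  congr 1
  have := congrArg Complex.ofReal (n t)
  push_cast at this
  rw [← this]; ring

lemma g_coord (f : ℝ → ℝ≥0∞) (hf : Measurable f) : ∫⁻ x, f (‖x‖ ^ 2) ∂stdGaussian E =
    ∫⁻ x : Fin (finrank ℝ E) → ℝ, f (∑ i, x i ^ 2) ∂Measure.pi fun _ => gaussianReal 0 1 := by
  rw [stdGaussian, lintegral_map (by fun_prop) (by fun_prop)]
  refine lintegral_congr fun x => congrArg f ?_
  rw [← (stdOrthonormalBasis ℝ E).sum_sq_norm_inner_right]
  simp [(stdOrthonormalBasis ℝ E).orthonormal.inner_right_fintype]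

lemma en2 {E : Type} [SeminormedAddCommGroup E] (x : E) : ‖x‖ₑ ^ 2 = .ofReal (‖x‖ ^ 2) := by
  rw [ENNReal.ofReal_pow (norm_nonneg _), ofReal_norm]

lemma g_sq : ∫⁻ x, ‖x‖ₑ ^ 2 ∂stdGaussian E = finrank ℝ E := by
  simp only [en2]
  rw [g_coord _ ENNReal.measurable_ofReal]
  simp only [ENNReal.ofReal_sum_of_nonneg fun _ _ => sq_nonneg _]
  rw [lintegral_finsetSum _ fun _ _ => by fun_prop]
  have : ∀ i, ∫⁻ x : Fin (finrank ℝ E) → ℝ, .ofReal (x i ^ 2) ∂Measure.pi
      (fun _ => gaussianReal 0 1) = 1 := fun i => by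
    rw [(measurePreserving_eval (fun _ => gaussianReal 0 1) i).lintegral_comp
      (f := fun y => .ofReal (y ^ 2)) (by fun_prop), ← ofReal_integral_eq_lintegral_ofReal
      (f := fun y => y ^ 2) (IsGaussian.memLp_two_id (μ := gaussianReal 0 1)).integrable_sq
      (Eventually.of_forall fun _ => sq_nonneg _)]
    have := variance_id_gaussianReal (μ := 0) (v := 1)
    rw [variance_eq_integral aemeasurable_id] at this
    simp_all
  simp [this]

lemma g_exp {t : ℝ} (ht : 1 / 2 < t) (N : ℕ) : ∫⁻ x : Fin N → ℝ,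
    .ofReal (Real.exp (-(t - 1 / 2) * ∑ i, x i ^ 2)) ∂Measure.pi (fun _ => gaussianReal 0 1) =
    .ofReal (2 ^ (-(N / 2 : ℝ)) * t ^ (-(N / 2 : ℝ))) := by
  rw [← ofReal_integral_eq_lintegral_ofReal (Integrable.of_bound
    (Continuous.aestronglyMeasurable (by fun_prop)) 1
    (Eventually.of_forall fun x => ?_)) (Eventually.of_forall fun _ => (Real.exp_pos _).le)]
  · simp only [Finset.mul_sum, Real.exp_sum]
    rw [integral_fintype_prod_eq_pow fun y : ℝ => Real.exp (-(t - 1 / 2) * y ^ 2),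
      integral_gaussianReal_eq_integral_smul one_ne_zero]
    have : ∀ y : ℝ, gaussianPDFReal 0 1 y • Real.exp (-(t - 1 / 2) * y ^ 2) =
        (√(2 * Real.pi))⁻¹ * Real.exp (-t * y ^ 2) := fun y => by
      simp only [gaussianPDFReal, smul_eq_mul, NNReal.coe_one, mul_one, mul_assoc, ← Real.exp_add]
      congr 2; ring
    simp only [this]
    rw [integral_const_mul, integral_gaussian, ← Real.sqrt_inv, ← Real.sqrt_mul (by positivity),
      show (2 * Real.pi)⁻¹ * (Real.pi / t) = (2 * t)⁻¹ by field_simp, Real.sqrt_eq_rpow,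
      ← Real.rpow_natCast, ← Real.rpow_mul (by positivity), Real.inv_rpow (by positivity),
      ← Real.rpow_neg (by positivity), Real.mul_rpow (by positivity) (by positivity),
      Fintype.card_fin, show 1 / 2 * (N : ℝ) = N / 2 by ring]
  · rw [Real.norm_eq_abs, abs_of_pos (Real.exp_pos _), Real.exp_le_one_iff]
    exact mul_nonpos_of_nonpos_of_nonneg (by linarith) (by positivity)

lemma g_inv (h : 2 < finrank ℝ E) :
    .ofReal (1 / (finrank ℝ E - 2)) ≤ ∫⁻ x, (‖x‖ₑ ^ 2)⁻¹ ∂stdGaussian E := by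
  have h' : (2 : ℝ) < finrank ℝ E := by exact_mod_cast h
  simp only [en2]
  rw [g_coord (fun s => (ENNReal.ofReal s)⁻¹) (by fun_prop)]
  generalize finrank ℝ E = N at h'
  have a : -(N / 2 : ℝ) < -1 := by linarith
  refine le_trans (le_of_eq ?_) (lintegral_mono (f := fun x : Fin N → ℝ => ∫⁻ t in Ioi (1 / 2),
    .ofReal (Real.exp (-(t - 1 / 2) * ∑ i, x i ^ 2))) fun x => ?_)
  · rw [lintegral_lintegral_swap (by fun_prop), setLIntegral_congr_fun measurableSet_Ioi
      fun t ht => g_exp ht N, ← ofReal_integral_eq_lintegral_ofReal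
      ((integrableOn_Ioi_rpow_of_lt a (by norm_num)).const_mul _)
      ((ae_restrict_mem measurableSet_Ioi).mono fun t ht => by
        have : 0 < t := lt_trans (by norm_num) ht
        positivity), integral_const_mul, integral_Ioi_rpow_of_lt a (by norm_num),
      Real.rpow_add (by norm_num), one_div 2, Real.inv_rpow (by norm_num), Real.rpow_one]
    congr 1
    have : (N : ℝ) - 2 ≠ 0 := by linarith
    have : -(N : ℝ) + 2 ≠ 0 := by linarith
    field_simp
    ring
  · simp only
    have s0 : 0 ≤ ∑ i, x i ^ 2 := by positivity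
    generalize ∑ i, x i ^ 2 = s at s0
    rcases s0.eq_or_lt with rfl | s0
    · simp
    have e : ∀ t : ℝ, Real.exp (-(t - 1 / 2) * s) = Real.exp (s / 2) * Real.exp (-s * t) :=
      fun t => by rw [← Real.exp_add]; congr 1; ring
    simp only [e]
    rw [← ofReal_integral_eq_lintegral_ofReal
      ((integrableOn_exp_mul_Ioi (neg_lt_zero.2 s0) _).const_mul _)
      (Eventually.of_forall fun _ => by positivity), integral_const_mul,
      integral_exp_mul_Ioi (neg_lt_zero.2 s0), ← ENNReal.ofReal_inv_of_pos s0, neg_div_neg_eq,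
      ← mul_div_assoc, ← Real.exp_add, show s / 2 + -s * (1 / 2) = 0 by ring, Real.exp_zero,
      one_div]

lemma g_zero (h : 0 < finrank ℝ E) : stdGaussian E {0} = 0 := by
  have := g_coord (E := E) (({0} : Set ℝ).indicator 1) (measurable_one.indicator (by simp))
  refine le_antisymm (le_trans ?_ (this.le.trans ?_)) zero_le
  · rw [← lintegral_indicator_one (by simp)]
    refine lintegral_mono fun x => ?_
    by_cases c : x = 0 <;> simp [c]
  · have := nullSingletonClass_gaussianReal (μ := 0) one_ne_zero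
    rw [← measure_singleton (μ := gaussianReal 0 1) 0, ← lintegral_indicator_one (by simp),
      ← (measurePreserving_eval (fun _ : Fin (finrank ℝ E) => gaussianReal 0 1)
        ⟨0, h⟩).lintegral_comp (measurable_one.indicator (by simp))]
    refine lintegral_mono fun x => ?_
    by_cases c : ∑ i, x i ^ 2 = 0
    · have := (Finset.sum_eq_zero_iff_of_nonneg fun _ _ => sq_nonneg _).1 c ⟨0, h⟩ (by simp)
      simp_all
    · simp [c]

end real

lemma mp_upd {ι E : Type} [Fintype ι] [DecidableEq ι] [MeasurableSpace E] (μ : Measure E)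
    [IsProbabilityMeasure μ] (j : ι) : MeasurePreserving (fun p : (ι → E) × E =>
      Function.update p.1 j p.2) ((Measure.pi fun _ => μ).prod μ) (Measure.pi fun _ => μ) := by
  refine ⟨measurable_update', (Measure.pi_eq fun s hs => ?_).symm⟩
  rw [Measure.map_apply measurable_update' (MeasurableSet.univ_pi hs),
    show (fun p : (ι → E) × E => Function.update p.1 j p.2) ⁻¹' univ.pi s =
      univ.pi (Function.update s j univ) ×ˢ s j from ?_, Measure.prod_prod, Measure.pi_pi,
    ← Finset.mul_prod_erase _ _ (Finset.mem_univ j), ← Finset.mul_prod_erase _ _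
      (Finset.mem_univ j), Function.update_self, measure_univ, one_mul, mul_comm]
  · exact congrArg _ (Finset.prod_congr rfl fun i hi => by
      rw [Function.update_of_ne (Finset.ne_of_mem_erase hi)])
  · ext p
    simp only [mem_preimage, mem_univ_pi, mem_prod]
    refine ⟨fun h => ⟨fun i => ?_, by simpa using h j⟩, fun h i => ?_⟩ <;> by_cases c : i = j
    · simp [c]
    · simpa [c] using h i
    · simpa [c] using h.2
    · simpa [c] using h.1 i

section K
variable {𝕜 : Type} [RCLike 𝕜] [MeasurableSpace 𝕜] [BorelSpace 𝕜]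
  {E : Type} [NormedAddCommGroup E] [InnerProductSpace 𝕜 E] [InnerProductSpace ℝ E]
  [FiniteDimensional ℝ E] [FiniteDimensional 𝕜 E] [MeasurableSpace E] [BorelSpace E]

lemma ri (𝕜 : Type) [RCLike 𝕜] {E : Type} [NormedAddCommGroup E] [InnerProductSpace 𝕜 E]
    [InnerProductSpace ℝ E] (x y : E) : ⟪x, y⟫_ℝ = RCLike.re ⟪x, y⟫_𝕜 := by
  rw [real_inner_eq_norm_add_mul_self_sub_norm_mul_self_sub_norm_mul_self_div_two,
    re_inner_eq_norm_add_mul_self_sub_norm_mul_self_sub_norm_mul_self_div_two]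

/-- coordinate space -/
abbrev V (𝕜 : Type) [RCLike 𝕜] (k : ℕ) := EuclideanSpace 𝕜 (Fin k)

omit [MeasurableSpace 𝕜] [BorelSpace 𝕜] in
lemma rk (k : ℕ) : finrank ℝ (V 𝕜 k) = finrank ℝ 𝕜 * k := by
  rw [← finrank_mul_finrank ℝ 𝕜, finrank_euclideanSpace_fin]

omit [MeasurableSpace 𝕜] [BorelSpace 𝕜] [InnerProductSpace ℝ E] [FiniteDimensional ℝ E]
  [MeasurableSpace E] [BorelSpace E] in
lemma emb (W : Submodule 𝕜 E) {k : ℕ} (hk : finrank 𝕜 W = k) :
    ∃ (J : V 𝕜 k →ₗᵢ[𝕜] E) (L : E →L[𝕜] V 𝕜 k), (∀ x t, ⟪L x, t⟫_𝕜 = ⟪x, J t⟫_𝕜) ∧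
      (∀ x, J (L x) = W.starProjection x) ∧ ∀ t, J t ∈ W := by
  let b := (stdOrthonormalBasis 𝕜 W).reindex (finCongr hk)
  refine ⟨W.subtypeₗᵢ.comp b.repr.symm.toLinearIsometry,
    b.repr.toContinuousLinearEquiv.toContinuousLinearMap.comp W.orthogonalProjectionOnto,
    fun x t => ?_, fun x => by simp, fun t => by simp⟩
  simp [← b.repr.symm.inner_map_map]

lemma p_law (W : Submodule 𝕜 E) (f : ℝ≥0∞ → ℝ≥0∞) (hf : Measurable f) :
    ∫⁻ x, f ‖W.starProjection x‖ₑ ∂stdGaussian E =
      ∫⁻ x, f ‖x‖ₑ ∂stdGaussian (V 𝕜 (finrank 𝕜 W)) := by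
  obtain ⟨J, L, h1, h2, -⟩ := emb W rfl
  rw [← (g_map L.continuous.measurable J (fun x t => by rw [ri 𝕜, ri 𝕜, h1])
    J.norm_map).lintegral_comp (by fun_prop)]
  simp only [← h2, J.enorm_map]

lemma p_sq (W : Submodule 𝕜 E) :
    ∫⁻ x, ‖W.starProjection x‖ₑ ^ 2 ∂stdGaussian E = finrank ℝ 𝕜 * finrank 𝕜 W := by
  rw [p_law W (· ^ 2) (by fun_prop), g_sq, rk, Nat.cast_mul]

lemma p_inv (W : Submodule 𝕜 E) (h : 2 < finrank ℝ 𝕜 * finrank 𝕜 W) :
    .ofReal (1 / (finrank ℝ 𝕜 * finrank 𝕜 W - 2)) ≤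
      ∫⁻ x, (‖W.starProjection x‖ₑ ^ 2)⁻¹ ∂stdGaussian E := by
  rw [p_law W (fun s => (s ^ 2)⁻¹) (by fun_prop), ← Nat.cast_mul, ← rk]
  exact g_inv (by rwa [rk])

lemma p_null (W : Submodule 𝕜 E) (h : finrank 𝕜 W < finrank 𝕜 E) :
    ∀ᵐ x ∂stdGaussian E, x ∉ W := by
  have := p_law Wᗮ (({0} : Set ℝ≥0∞).indicator 1) (measurable_one.indicator (by simp))
  have e := W.finrank_add_finrank_orthogonal
  have z := g_zero (E := V 𝕜 (finrank 𝕜 Wᗮ)) (by
    rw [rk]; exact Nat.mul_pos finrank_pos (by omega))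
  rw [← lintegral_indicator_one (by simp)] at z
  refine measure_eq_zero_iff_ae_notMem.1 ?_
  rw [← lintegral_indicator_one W.closed_of_finiteDimensional.measurableSet]
  refine le_antisymm ((lintegral_mono fun x => ?_).trans (this.le.trans
    ((lintegral_mono fun x => ?_).trans z.le))) zero_le
  · by_cases c : x ∈ W
    · simp [c, Submodule.starProjection_eq_self_iff.2 c]
    · simp [c]
  · by_cases c : x = 0 <;> simp [c]

lemma li_ae {ι : Type} [Fintype ι] (s : Finset ι) (hs : s.card ≤ finrank 𝕜 E) :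
    ∀ᵐ u ∂Measure.pi fun _ : ι => stdGaussian E, LinearIndepOn 𝕜 u s := by
  classical
  induction s using Finset.induction_on with
  | empty => simp
  | insert j s hj ih =>
    rw [Finset.card_insert_of_notMem hj] at hs
    have m : MeasurableSet {u : ι → E | LinearIndepOn 𝕜 u (insert j s : Finset ι)} :=
      (isOpen_setOfPred_linearIndependent.preimage
        (f := fun (u : ι → E) (i : (insert j s : Finset ι)) => u i) (by fun_prop)).measurableSet
    rw [← (mp_upd _ j).map_eq, ae_map_iff measurable_update'.aemeasurable m]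
    refine (Measure.ae_prod_iff_ae_ae (measurable_update' m)).2 ?_
    filter_upwards [ih (by omega)] with u hu
    filter_upwards [p_null (Submodule.span 𝕜 (u '' s)) (by
      have := finrank_span_finset_le_card (R := 𝕜) (s.image u)
      rw [Set.finrank, Finset.coe_image] at this
      have := Finset.card_image_le (s := s) (f := u)
      omega)] with y hy
    have e : EqOn u (Function.update u j y) s := fun i hi =>
      (Function.update_of_ne (by rintro rfl; exact hj hi) _ _).symm
    rw [Finset.coe_insert, linearIndepOn_insert (by simpa using hj), ← e.image_eq,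
      Function.update_self]
    exact ⟨hu.congr e, hy⟩

omit [MeasurableSpace 𝕜] [BorelSpace 𝕜] [FiniteDimensional 𝕜 E] in
lemma sum_sq {ι : Type} [Fintype ι] (δ : ι → 𝕜) (s : Finset ι) (z : E) :
    ∫⁻ v, ‖z + ∑ j ∈ s, δ j • v j‖ₑ ^ 2 ∂(Measure.pi fun _ : ι => stdGaussian E) =
      ‖z‖ₑ ^ 2 + (∑ j ∈ s, ‖δ j‖ₑ ^ 2) * finrank ℝ E := by
  classical
  have a : ∀ (z : E) (c : 𝕜), ∫⁻ y, ‖z + c • y‖ₑ ^ 2 ∂stdGaussian E =
      ‖z‖ₑ ^ 2 + ‖c‖ₑ ^ 2 * finrank ℝ E := fun z c => by
    have n := (g_map (E := E) measurable_neg Neg.neg (by simp) norm_neg).lintegral_comp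
      (f := fun y => ‖z + c • y‖ₑ ^ 2) (by fun_prop)
    rw [← ENNReal.mul_right_inj two_ne_zero ENNReal.ofNat_ne_top, two_mul]
    nth_rw 2 [← n]
    rw [← lintegral_add_left (by fun_prop), ← g_sq, ← lintegral_const_mul _ (by fun_prop),
      ← mul_one (‖z‖ₑ ^ 2), ← measure_univ (μ := stdGaussian E), ← lintegral_const,
      ← lintegral_add_left measurable_const, ← lintegral_const_mul _ (by fun_prop)]
    refine lintegral_congr fun y => ?_
    have := parallelogram_law_with_norm 𝕜 z (c • y)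
    rw [← mul_pow, ← enorm_smul, en2, en2, en2, en2, smul_neg, ← sub_eq_add_neg,
      ← ENNReal.ofReal_add (by positivity) (by positivity),
      ← ENNReal.ofReal_add (by positivity) (by positivity), ← ENNReal.ofReal_ofNat,
      ← ENNReal.ofReal_mul (by positivity)]
    exact congrArg _ (by linarith)
  induction s using Finset.induction_on with
  | empty => simp
  | insert j s hj ih =>
    rw [← (mp_upd _ j).lintegral_comp (by fun_prop), lintegral_prod _ (by fun_prop),
      Finset.sum_insert hj, add_comm (‖δ j‖ₑ ^ 2), add_mul, ← add_assoc, ← ih,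
      ← mul_one (‖δ j‖ₑ ^ 2 * _), ← measure_univ (μ := Measure.pi fun _ : ι => stdGaussian E),
      ← lintegral_const, ← lintegral_add_right _ measurable_const]
    refine lintegral_congr fun u => ?_
    rw [← a]
    refine lintegral_congr fun y => ?_
    rw [Finset.sum_insert hj, Function.update_self, add_comm (δ j • y), add_assoc,
      Finset.sum_congr rfl fun i hi => by
        rw [Function.update_of_ne (by rintro rfl; exact hj hi)]]

end K

end Pool.Agent.H.MP_467638_an
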