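import Mathlib
import Pool.Agent.H.MP_467638_an.A

namespace Pool.Agent.H.MP_467638_an

open MeasureTheory ProbabilityTheory Set Filter Topology Module
open scoped ENNReal InnerProductSpace

variable {𝕜 : Type} [RCLike 𝕜] [MeasurableSpace 𝕜] [BorelSpace 𝕜]
  {E : Type} [NormedAddCommGroup E] [InnerProductSpace 𝕜 E] [InnerProductSpace ℝ E]
  [FiniteDimensional ℝ E] [FiniteDimensional 𝕜 E] [MeasurableSpace E] [BorelSpace E] {r : ℕ}

/-- linear combination -/
def T {E : Type} [AddCommGroup E] [Module 𝕜 E] (u : Fin r → E) : V 𝕜 r →ₗ[𝕜] E where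
  toFun x := ∑ j, x j • u j
  map_add' x y := by simp [add_smul, Finset.sum_add_distrib]
  map_smul' c x := by simp [Finset.smul_sum, mul_smul]

omit [MeasurableSpace 𝕜] [BorelSpace 𝕜] in
lemma T_ap {E : Type} [AddCommGroup E] [Module 𝕜 E] (u : Fin r → E) (x : V 𝕜 r) :
    T u x = ∑ j, x j • u j := rfl

/-- posterior variance -/
noncomputable def h (𝕜 : Type) [RCLike 𝕜] {E : Type} [NormedAddCommGroup E] [Module 𝕜 E]
    (t : ℕ) (u : Fin r → E) (j : Fin r) : ℝ≥0∞ :=
  ⨆ v : V 𝕜 r, ‖v j‖ₑ ^ 2 * (‖v‖ₑ ^ 2 * ((t + 1 : ℝ≥0∞) ^ 2)⁻¹ + ‖T u v‖ₑ ^ 2)⁻¹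

lemma bayes (u : Fin r → E) {f : E → 𝕜} (hf : Measurable f) (t : ℕ) (j : Fin r) :
    finrank ℝ 𝕜 * h 𝕜 t u j ≤ ∫⁻ p, ‖(t + 1 : 𝕜) * p.1 j - f ((t + 1 : 𝕜) • T u p.1 + p.2)‖ₑ ^ 2
      ∂(stdGaussian (V 𝕜 r)).prod (stdGaussian E) := by
  rw [h, ENNReal.mul_iSup]
  refine iSup_le fun v => ?_
  by_cases v0 : v = 0
  · simp [v0]
  have t0 : (t + 1 : 𝕜) ≠ 0 := by exact_mod_cast t.succ_ne_zero
  let c : WithLp 2 (V 𝕜 r × E) := WithLp.toLp 2 ((t + 1 : 𝕜)⁻¹ • v, -T u v)
  have c0 : c ≠ 0 := fun q => v0 (by simpa [c, t0] using congrArg WithLp.fst q)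
  have cn : ‖v‖ₑ ^ 2 * ((t + 1 : ℝ≥0∞) ^ 2)⁻¹ + ‖T u v‖ₑ ^ 2 = ‖c‖ₑ ^ 2 := by
    rw [en2 c, WithLp.prod_norm_sq_eq_of_L2, ENNReal.ofReal_add (by positivity) (by positivity),
      ← en2, ← en2]
    simp only [c, WithLp.toLp_fst, WithLp.toLp_snd, enorm_neg, enorm_smul, enorm_inv t0, mul_pow,
      mul_comm, ENNReal.inv_pow]
    rw [← Nat.cast_succ (R := 𝕜), ← ofReal_norm ((t.succ : ℕ) : 𝕜), RCLike.norm_natCast,
      ENNReal.ofReal_natCast, Nat.cast_succ]
  let K := 𝕜 ∙ c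
  let F : WithLp 2 (V 𝕜 r × E) → ℝ≥0∞ := fun w =>
    ‖(t + 1 : 𝕜) * w.fst j - f ((t + 1 : 𝕜) • T u w.fst + w.snd)‖ₑ ^ 2
  have mF : Measurable F := by
    have : Measurable fun w : WithLp 2 (V 𝕜 r × E) => (t + 1 : 𝕜) • T u w.fst + w.snd :=
      Continuous.measurable (by simp only [T_ap]; fun_prop)
    have := hf.comp this
    have : Measurable fun w : WithLp 2 (V 𝕜 r × E) => w.fst j :=
      Continuous.measurable (by fun_prop)
    fun_prop
  have m1 := (g_add (E := V 𝕜 r) (F := E) (WithLp.measurable_toLp 2 _) WithLp.fst WithLp.snd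
    (fun _ _ => rfl) fun t => (WithLp.prod_norm_sq_eq_of_L2 t).symm).lintegral_comp mF
  have m2 := (g_map Kᗮ.reflection.continuous.measurable Kᗮ.reflection (fun x y => by
    rw [ri 𝕜, ri 𝕜, ← Kᗮ.reflection.inner_map_map x, Submodule.reflection_reflection])
    Kᗮ.reflection.norm_map).lintegral_comp mF
  refine le_of_le_of_eq ?_ m1.symm
  rw [← ENNReal.mul_le_mul_iff_right two_ne_zero ENNReal.ofNat_ne_top, two_mul (lintegral _ _)]
  nth_rw 2 [← m2]
  have := p_sq K
  rw [finrank_span_singleton c0, Nat.cast_one, mul_one] at this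
  rw [← lintegral_add_left mF, ← this, ← lintegral_mul_const _ (by fun_prop),
    ← lintegral_const_mul _ (by fun_prop)]
  refine lintegral_mono fun w => ?_
  obtain ⟨s, hs⟩ := Submodule.mem_span_singleton.1 (K.starProjection_apply_mem w)
  have e : Kᗮ.reflection w = w - (2 * s) • c := by
    rw [Submodule.reflection_orthogonal_apply, Submodule.reflection_apply, ← hs, neg_sub, mul_smul,
      two_smul, two_smul]
  have e1 : (t + 1 : 𝕜) • T u (w - (2 * s) • c).fst + (w - (2 * s) • c).snd =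
      (t + 1 : 𝕜) • T u w.fst + w.snd := by
    simp only [c, WithLp.sub_fst, WithLp.smul_fst, WithLp.toLp_fst, WithLp.sub_snd,
      WithLp.smul_snd, WithLp.toLp_snd, map_sub, map_smul, smul_sub, smul_smul]
    rw [show (t + 1 : 𝕜) * (2 * s * (t + 1 : 𝕜)⁻¹) = 2 * s by field_simp, smul_neg]
    abel
  have e2 : (t + 1 : 𝕜) * (w - (2 * s) • c).fst j = (t + 1 : 𝕜) * w.fst j - 2 * (s * v j) := by
    simp only [c, WithLp.sub_fst, WithLp.smul_fst, WithLp.toLp_fst, PiLp.sub_apply,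
      PiLp.smul_apply, smul_eq_mul]
    field_simp
  simp only [F, e, e1, e2, cn, ← hs]
  generalize f _ = y
  generalize (t + 1 : 𝕜) * _ = a
  have := parallelogram_law_with_norm 𝕜 (a - y - s * v j) (s * v j)
  rw [enorm_smul, mul_pow, mul_mul_mul_comm, ENNReal.mul_inv_cancel (by simpa using c0) (by simp),
    mul_one, ← mul_pow, ← enorm_mul, en2, en2, en2,
    ← ENNReal.ofReal_add (by positivity) (by positivity), two_mul (ENNReal.ofReal _),
    ← ENNReal.ofReal_add (by positivity) (by positivity)]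
  refine ENNReal.ofReal_le_ofReal ?_
  rw [sub_add_cancel, show a - y - s * v j - s * v j = a - 2 * (s * v j) - y by ring] at this
  nlinarith [norm_nonneg (a - y - s * v j)]

omit [MeasurableSpace 𝕜] [BorelSpace 𝕜] [InnerProductSpace ℝ E] [FiniteDimensional ℝ E] in
lemma h_meas (t : ℕ) (j : Fin r) : Measurable fun u : Fin r → E => h 𝕜 t u j := by
  have := FiniteDimensional.proper_rclike 𝕜 E
  refine LowerSemicontinuous.measurable (lowerSemicontinuous_iSup fun v =>
    Continuous.lowerSemicontinuous ((ENNReal.continuous_const_mul (by simp)).comp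
      (continuous_const.add ((ENNReal.continuous_pow 2).comp ?_)).inv))
  simp only [T_ap]; fun_prop

omit [MeasurableSpace 𝕜] [BorelSpace 𝕜] in
lemma h_mono {E : Type} [NormedAddCommGroup E] [Module 𝕜 E] (u : Fin r → E) (j : Fin r) :
    Monotone fun t => h 𝕜 t u j := fun _ _ _ => iSup_mono fun v => by gcongr

omit [MeasurableSpace 𝕜] [BorelSpace 𝕜] in
lemma h_lim {E : Type} [NormedAddCommGroup E] [Module 𝕜 E] (u : Fin r → E) (j : Fin r)
    (v : V 𝕜 r) : ‖v j‖ₑ ^ 2 * (‖T u v‖ₑ ^ 2)⁻¹ ≤ ⨆ t, h 𝕜 t u j := by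
  have t : Tendsto (fun t : ℕ => ((t + 1 : ℝ≥0∞) ^ 2)⁻¹) atTop (𝓝 0) := by
    refine tendsto_of_tendsto_of_tendsto_of_le_of_le tendsto_const_nhds
      ENNReal.tendsto_inv_nat_nhds_zero (fun _ => zero_le) fun n => ENNReal.inv_le_inv.2 ?_
    exact le_self_add.trans (le_self_pow₀ le_add_self two_ne_zero)
  have := ENNReal.Tendsto.const_mul (a := ‖v j‖ₑ ^ 2) ((ENNReal.Tendsto.const_mul
    (a := ‖v‖ₑ ^ 2) t (Or.inr (by simp))).add_const (‖T u v‖ₑ ^ 2)).inv (Or.inr (by simp))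
  rw [mul_zero, zero_add] at this
  exact le_of_tendsto' this fun t => le_iSup₂_of_le (f := fun (t : ℕ) (v : V 𝕜 r) =>
    ‖v j‖ₑ ^ 2 * (‖v‖ₑ ^ 2 * ((t + 1 : ℝ≥0∞) ^ 2)⁻¹ + ‖T u v‖ₑ ^ 2)⁻¹) t v le_rfl

lemma h_int {k : ℕ} (hk : finrank 𝕜 E + 1 = r + k) (h2 : 2 < finrank ℝ 𝕜 * k) (j : Fin r) :
    .ofReal (1 / (finrank ℝ 𝕜 * k - 2)) ≤
      ∫⁻ u, ⨆ t, h 𝕜 t u j ∂Measure.pi fun _ => stdGaussian E := by
  have m : Measurable fun u : Fin r → E => ⨆ t, h 𝕜 t u j := Measurable.iSup fun t => h_meas t j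
  have k0 : k ≠ 0 := by rintro rfl; simp at h2
  have c : (Finset.univ.erase j).card + 1 = r := by
    rw [Finset.card_erase_add_one (Finset.mem_univ j), Finset.card_fin]
  rw [← (mp_upd _ j).lintegral_comp m, lintegral_prod _ (by exact (m.comp measurable_update').aemeasurable),
    ← mul_one (ENNReal.ofReal _),
    ← measure_univ (μ := Measure.pi fun _ : Fin r => stdGaussian E), ← lintegral_const]
  refine lintegral_mono_ae ?_
  filter_upwards [li_ae (𝕜 := 𝕜) (E := E) (Finset.univ.erase j) (by omega)] with u hu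
  have e := (Submodule.span 𝕜 (u '' (Finset.univ.erase j))).finrank_add_finrank_orthogonal
  have e2 := (finrank_span_eq_card hu).trans (Fintype.card_coe _)
  rw [← image_eq_range] at e2
  have e3 : finrank 𝕜 (Submodule.span 𝕜 (u '' (Finset.univ.erase j)))ᗮ = k := by omega
  refine (e3 ▸ p_inv _ (e3 ▸ h2)).trans (lintegral_mono fun y => ?_)
  obtain ⟨a, ha⟩ := (Submodule.mem_span_image_finset_iff_exists_fun' 𝕜).1
    ((Submodule.span 𝕜 (u '' (Finset.univ.erase j))).starProjection_apply_mem y)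
  refine le_trans (le_of_eq ?_) (h_lim _ j (WithLp.toLp 2 (Function.update (-a) j 1)))
  rw [Submodule.starProjection_orthogonal_val, ← ha, T_ap,
    ← Finset.add_sum_erase _ _ (Finset.mem_univ j), sub_eq_add_neg, ← Finset.sum_neg_distrib]
  simp only [Function.update_self, enorm_one, one_pow, one_mul, one_smul]
  congr 4
  exact Finset.sum_congr rfl fun i hi => by simp [Finset.ne_of_mem_erase hi]

/-- splitting off the first vector -/
def sp (r : ℕ) (E : Type) [MeasurableSpace E] : (Fin (r + 1) → E) ≃ᵐ (Fin r → E) × E :=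
  (MeasurableEquiv.piFinSuccAbove (fun _ => E) 0).trans MeasurableEquiv.prodComm

lemma sp_mp {E : Type} [MeasurableSpace E] (μ : Measure E) [IsProbabilityMeasure μ] :
    MeasurePreserving (sp r E) (Measure.pi fun _ => μ) ((Measure.pi fun _ => μ).prod μ) :=
  Measure.measurePreserving_swap.comp (measurePreserving_piFinSuccAbove (fun _ => μ) 0)

lemma sp_ap {E : Type} [MeasurableSpace E] (w : Fin (r + 1) → E) :
    sp r E w = (fun j => w j.succ, w 0) := rfl

lemma perp_int (hr : r ≤ finrank 𝕜 E) : ∫⁻ u, ∫⁻ g, ‖(Submodule.span 𝕜 (range u))ᗮ.starProjection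
    g‖ₑ ^ 2 ∂stdGaussian E ∂(Measure.pi fun _ : Fin r => stdGaussian E) =
      finrank ℝ 𝕜 * (finrank 𝕜 E - r : ℕ) := by
  rw [← mul_one (_ * _), ← measure_univ (μ := Measure.pi fun _ : Fin r => stdGaussian E),
    ← lintegral_const]
  refine lintegral_congr_ae ?_
  filter_upwards [li_ae (𝕜 := 𝕜) (E := E) (Finset.univ : Finset (Fin r)) (by simpa)] with u hu
  rw [Finset.coe_univ, linearIndepOn_univ_iff] at hu
  have e := (Submodule.span 𝕜 (range u)).finrank_add_finrank_orthogonal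
  rw [finrank_span_eq_card hu, Fintype.card_fin] at e
  rw [p_sq, ← e, Nat.add_sub_cancel_left]

omit [MeasurableSpace 𝕜] [BorelSpace 𝕜] [InnerProductSpace ℝ E] [FiniteDimensional ℝ E]
  [MeasurableSpace E] [BorelSpace E] in
lemma perp_T (u : Fin r → E) (x : V 𝕜 r) (g : E) :
    (Submodule.span 𝕜 (range u))ᗮ.starProjection (g + T u x) =
      (Submodule.span 𝕜 (range u))ᗮ.starProjection g := by
  rw [map_add, add_eq_left, Submodule.starProjection_apply_eq_zero_iff, T_ap]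
  exact Submodule.le_orthogonal_orthogonal _ (Submodule.sum_mem _ fun i _ =>
    Submodule.smul_mem _ _ (Submodule.subset_span (mem_range_self i)))

lemma key {F G : Type} [NormedAddCommGroup F] [InnerProductSpace 𝕜 F] [InnerProductSpace ℝ F]
    [FiniteDimensional ℝ F] [FiniteDimensional 𝕜 F] [MeasurableSpace F] [BorelSpace F]
    [NormedAddCommGroup G] [InnerProductSpace 𝕜 G] [InnerProductSpace ℝ G]
    [FiniteDimensional ℝ G] [MeasurableSpace G] [BorelSpace G]
    (J : F →ₗᵢ[𝕜] E) (J' : G →ₗᵢ[𝕜] E) (L : E →L[𝕜] F) (L' : E →L[𝕜] G)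
    (h1 : ∀ x t, ⟪L x, t⟫_𝕜 = ⟪x, J t⟫_𝕜) (h2 : ∀ x t, ⟪L' x, t⟫_𝕜 = ⟪x, J' t⟫_𝕜)
    (h3 : ∀ t, ‖L t‖ ^ 2 + ‖L' t‖ ^ 2 = ‖t‖ ^ 2) (h4 : ∀ a b, ⟪J a, J' b⟫_𝕜 = 0)
    (hr : r ≤ finrank 𝕜 F) {φ : (Fin r → F) × F → V 𝕜 r} (hφ : Measurable φ) (t : ℕ) :
    finrank ℝ 𝕜 * (finrank 𝕜 F - r : ℕ) + (1 + finrank ℝ 𝕜 * ∑ j : Fin r, ∫⁻ u, h 𝕜 t u j
      ∂Measure.pi fun _ => stdGaussian F) * finrank ℝ G ≤
    ∫⁻ p, ‖p.2 0 + T (fun j => p.2 j.succ) ((t + 1 : 𝕜) • p.1 - φ (fun j => L (p.2 j.succ),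
      L ((t + 1 : 𝕜) • T (fun j => p.2 j.succ) p.1 + p.2 0)))‖ₑ ^ 2
      ∂(stdGaussian (V 𝕜 r)).prod (Measure.pi fun _ : Fin (r + 1) => stdGaussian E) := by
  have := FiniteDimensional.proper_rclike 𝕜 E
  have := FiniteDimensional.proper_rclike 𝕜 F
  have := FiniteDimensional.proper_real G
  have m0 : MeasurePreserving (fun p : F × G => J p.1 + J' p.2) _ _ :=
    g_add (Continuous.measurable (by fun_prop)) L L' (fun x y => by
      rw [inner_add_left, real_inner_comm, ri 𝕜, ← h1, real_inner_comm y, ri 𝕜 y, ← h2,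
        real_inner_comm, ri 𝕜, real_inner_comm (L' y), ri 𝕜]) h3
  have m1 := ((MeasurePreserving.id (stdGaussian (V 𝕜 r))).prod ((measurePreserving_pi _ _
    fun _ : Fin (r + 1) => m0).comp (measurePreserving_arrowProdEquivProdArrow F G _
      (fun _ => stdGaussian F) fun _ => stdGaussian G).symm)).comp
    (measurePreserving_prodAssoc _ _ _)
  have mT : ∀ {E : Type} [NormedAddCommGroup E] [InnerProductSpace 𝕜 E] [MeasurableSpace E]
      [BorelSpace E] [SecondCountableTopology E],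
      Measurable fun p : (Fin r → E) × V 𝕜 r => T p.1 p.2 := fun {_} _ _ _ _ _ =>
    Continuous.measurable (by simp only [T_ap]; fun_prop)
  have mL := L.continuous.measurable
  have LJ : ∀ a b, L (J a + J' b) = a := fun a b => ext_inner_right 𝕜 fun y => by
    rw [h1, inner_add_left, J.inner_map_map, inner_eq_zero_symm.1 (h4 _ _), add_zero]
  let δ : V 𝕜 r × ((Fin r → F) × F) → V 𝕜 r := fun q =>
    (t + 1 : 𝕜) • q.1 - φ (q.2.1, (t + 1 : 𝕜) • T q.2.1 q.1 + q.2.2)
  have mδ : Measurable δ := by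
    have := mT.comp (f := fun q : V 𝕜 r × ((Fin r → F) × F) => (q.2.1, q.1)) (by fun_prop)
    fun_prop
  have mP : Measurable fun p : V 𝕜 r × (Fin (r + 1) → E) => ‖p.2 0 + T (fun j => p.2 j.succ)
      ((t + 1 : 𝕜) • p.1 - φ (fun j => L (p.2 j.succ),
      L ((t + 1 : 𝕜) • T (fun j => p.2 j.succ) p.1 + p.2 0)))‖ₑ ^ 2 := by
    have a := mT.comp (f := fun p : V 𝕜 r × (Fin (r + 1) → E) => (fun j => p.2 j.succ, p.1))
      (by fun_prop)
    have b := mT.comp (f := fun p : V 𝕜 r × (Fin (r + 1) → E) => (fun j => p.2 j.succ,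
      (t + 1 : 𝕜) • p.1 - φ (fun j => L (p.2 j.succ),
        L ((t + 1 : 𝕜) • T (fun j => p.2 j.succ) p.1 + p.2 0)))) (by fun_prop)
    fun_prop
  let Φ : V 𝕜 r × ((Fin r → F) × F) → ℝ≥0∞ := fun q => ‖q.2.2 + T q.2.1 (δ q)‖ₑ ^ 2
  have mΦ : Measurable Φ := by
    have := mT.comp (f := fun q : V 𝕜 r × ((Fin r → F) × F) => (q.2.1, δ q)) (by fun_prop)
    fun_prop
  have mj : ∀ j, Measurable fun q => ‖δ q j‖ₑ ^ 2 := fun j =>
    (((by fun_prop : Continuous fun x : V 𝕜 r => x j).measurable.comp mδ).enorm).pow_const _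
  have ms : Measurable fun q => 1 + ∑ j, ‖δ q j‖ₑ ^ 2 :=
    measurable_const.add (Finset.measurable_sum _ fun j _ => mj j)
  have m2 := (MeasurePreserving.id (stdGaussian (V 𝕜 r))).prod (sp_mp (r := r) (stdGaussian F))
  rw [← m1.lintegral_comp mP, lintegral_prod _ (by exact (mP.comp m1.measurable).aemeasurable)]
  refine le_trans ?_ ((m2.lintegral_comp (mΦ.add (ms.mul_const (finrank ℝ G)))).ge.trans
    (lintegral_mono fun q => le_of_eq ?_))
  · simp only [Pi.add_apply]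
    rw [lintegral_add_left mΦ, lintegral_mul_const _ ms, lintegral_add_left measurable_const,
      lintegral_const, measure_univ, mul_one, lintegral_finsetSum _ fun j _ => mj j,
      Finset.mul_sum]
    refine add_le_add ?_ (mul_le_mul' (add_le_add le_rfl (Finset.sum_le_sum fun j _ => ?_)) le_rfl)
    · rw [lintegral_prod _ mΦ.aemeasurable, ← mul_one (_ * _),
        ← measure_univ (μ := stdGaussian (V 𝕜 r)), ← lintegral_const]
      refine lintegral_mono fun x => ?_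
      rw [lintegral_prod _ (by fun_prop), ← perp_int hr]
      refine lintegral_mono fun u => lintegral_mono fun g => ?_
      rw [← perp_T u (δ (x, u, g)), en2]
      exact (ENNReal.ofReal_le_ofReal (pow_le_pow_left₀ (norm_nonneg _)
        (Submodule.norm_starProjection_apply_le _ _) 2)).trans (en2 _).ge
    · rw [← lintegral_const_mul _ (h_meas t j), lintegral_prod _ (mj j).aemeasurable]
      have e := fun x => lintegral_prod (μ := Measure.pi fun _ : Fin r => stdGaussian F)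
        (ν := stdGaussian F) (fun z => ‖δ (x, z) j‖ₑ ^ 2)
        ((mj j).comp measurable_prodMk_left).aemeasurable
      simp only [e]
      rw [lintegral_lintegral_swap (((mj j).comp (f := fun z : (V 𝕜 r × (Fin r → F)) × F =>
        (z.1.1, z.1.2, z.2)) (by fun_prop)).lintegral_prod_right'.aemeasurable)]
      refine lintegral_mono fun u => (bayes u (f := fun y => φ (u, y) j)
        ((by fun_prop : Continuous fun x : V 𝕜 r => x j).measurable.comp (by fun_prop)) t j).trans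
        ((lintegral_prod_le _).trans le_rfl)
  · have := sum_sq (E := G) (Fin.cons 1 (δ (q.1, sp r F q.2))) Finset.univ 0
    simp only [Fin.sum_univ_succ, Fin.cons_zero, Fin.cons_succ, enorm_one, one_pow, enorm_zero,
      zero_add, one_smul, zero_pow two_ne_zero] at this
    simp only [Pi.add_apply, Prod.map, id]
    rw [← this, ← mul_one (Φ _), ← measure_univ (μ := Measure.pi fun _ : Fin (r + 1) =>
      stdGaussian G), ← lintegral_const, ← lintegral_add_left measurable_const]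
    refine lintegral_congr fun w => ?_
    have s : ∀ x : V 𝕜 r, T (fun j => J (q.2 j.succ) + J' (w j.succ)) x =
        J (T (fun j => q.2 j.succ) x) + J' (T (fun j => w j.succ) x) := fun x => by
      simp [T_ap, Finset.sum_add_distrib]
    show _ = ‖J (q.2 0) + J' (w 0) + T (fun j => J (q.2 j.succ) + J' (w j.succ))
      ((t + 1 : 𝕜) • q.1 - φ (fun j => L (J (q.2 j.succ) + J' (w j.succ)), L ((t + 1 : 𝕜) •
        T (fun j => J (q.2 j.succ) + J' (w j.succ)) q.1 + (J (q.2 0) + J' (w 0)))))‖ₑ ^ 2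
    rw [s q.1, smul_add, add_add_add_comm, ← map_smul J, ← map_smul J', ← map_add J,
      ← map_add J', s, add_add_add_comm, ← map_add J, ← map_add J', en2 (J _ + _), sq ‖J _ + _‖,
      norm_add_sq_eq_norm_sq_add_norm_sq_of_inner_eq_zero _ _ (h4 _ _),
      J.norm_map, J'.norm_map, ENNReal.ofReal_add (by positivity) (by positivity), ← sq, ← sq,
      ← en2, ← en2]
    simp only [LJ]
    rfl

end Pool.Agent.H.MP_467638_an
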