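import Mathlib
import Pool.Agent.H.MP_467638_an.B

namespace Pool.Agent.H.MP_467638_an

open MeasureTheory ProbabilityTheory Set Filter Topology Module Matrix
open scoped ENNReal InnerProductSpace

variable {𝕜 : Type} [RCLike 𝕜] {n r d p : ℕ}

/-- matrix with given columns -/
def mc (a : Fin r → V 𝕜 n) : Matrix (Fin n) (Fin r) 𝕜 := of fun i j => a j i

/-- padding -/
def pad (𝕜 : Type) [RCLike 𝕜] (hd : r ≤ d) : Matrix (Fin r) (Fin d) 𝕜 :=
  of fun j k => if Fin.castLE hd j = k then 1 else 0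

/-- one nonzero column -/
def mb (k : Fin p) (b : V 𝕜 n) : Matrix (Fin n) (Fin p) 𝕜 := mc (Pi.single k b)

lemma pad_mul (hd : r ≤ d) : pad 𝕜 hd * (pad 𝕜 hd)ᵀ = 1 := by
  ext i j
  simp [pad, mul_apply, one_apply, eq_comm]

lemma rank_pad (hd : r ≤ d) (A : Matrix (Fin n) (Fin r) 𝕜) : (A * pad 𝕜 hd).rank = A.rank := by
  refine le_antisymm (rank_mul_le_left _ _) ?_
  conv_lhs => rw [← Matrix.mul_one A, ← pad_mul hd, ← Matrix.mul_assoc]
  exact rank_mul_le_left _ _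

lemma rank_mc (a : Fin r → V 𝕜 n) : (mc a).rank = finrank 𝕜 (Submodule.span 𝕜 (range a)) := by
  rw [rank_eq_finrank_span_cols, ← (WithLp.linearEquiv 2 𝕜 (Fin n → 𝕜)).finrank_map_eq,
    Submodule.map_span, ← range_comp]
  rfl

lemma adj_mc {l : ℕ} (c : Fin l → V 𝕜 n) (a : Fin r → V 𝕜 n) :
    (mc c)ᴴ * mc a = (mc c)ᴴ * mc fun j => (Submodule.span 𝕜 (range c)).starProjection (a j) := by
  have e : ∀ a : Fin r → V 𝕜 n, (mc c)ᴴ * mc a = of fun i j => ⟪c i, a j⟫_𝕜 := fun a => by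
    ext i j
    simp [mc, mul_apply, PiLp.inner_apply, mul_comm]
  rw [e, e]
  ext i j
  rw [of_apply, of_apply, ← Submodule.inner_starProjection_left_eq_right,
    Submodule.starProjection_eq_self_iff.2 (Submodule.subset_span (mem_range_self i))]

lemma frob_mc (b : Fin p → V 𝕜 n) (a : Fin r → V 𝕜 n) (Y : Matrix (Fin r) (Fin p) 𝕜) :
    ∑ i, ∑ k, ‖(mc b - mc a * Y) i k‖ ^ 2 =
      ∑ k, ‖b k - T a (WithLp.toLp 2 fun j => Y j k)‖ ^ 2 := by
  rw [Finset.sum_comm]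
  refine Finset.sum_congr rfl fun k _ => ?_
  rw [EuclideanSpace.norm_sq_eq]
  simp [mc, T_ap, mul_apply, mul_comm]

lemma res_eq (hd : r ≤ d) (k : Fin p) (b : V 𝕜 n) (a : Fin r → V 𝕜 n) :
    ⨅ X : Matrix (Fin d) (Fin p) 𝕜, ∑ i, ∑ j, ‖(mb k b - mc a * pad 𝕜 hd * X) i j‖ ^ 2 =
      ‖(Submodule.span 𝕜 (range a))ᗮ.starProjection b‖ ^ 2 := by
  obtain ⟨c, hc⟩ := (Submodule.mem_span_range_iff_exists_fun 𝕜).1
    ((Submodule.span 𝕜 (range a)).starProjection_apply_mem b)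
  refine le_antisymm ((ciInf_le ⟨0, ?_⟩ ((pad 𝕜 hd)ᵀ * mb k (WithLp.toLp 2 c))).trans_eq ?_)
    (le_ciInf fun X => ?_)
  · rintro _ ⟨X, rfl⟩; positivity
  · rw [Matrix.mul_assoc, ← Matrix.mul_assoc (pad 𝕜 hd), pad_mul, Matrix.one_mul, mb, frob_mc,
      Finset.sum_eq_single k (fun j _ hj => by simp [mb, mc, hj, T_ap]) (by simp),
      Submodule.starProjection_orthogonal_val, ← hc]
    simp [mb, mc, T_ap]
  · rw [Matrix.mul_assoc, mb, frob_mc]
    refine le_trans ?_ (Finset.single_le_sum (fun _ _ => sq_nonneg _) (Finset.mem_univ k))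
    rw [Pi.single_eq_same, sub_eq_add_neg, ← map_neg, ← perp_T a]
    exact pow_le_pow_left₀ (norm_nonneg _) (Submodule.norm_starProjection_apply_le _ _) 2

lemma le_lint {X : Type} [MeasurableSpace X] {μ : Measure X} [IsProbabilityMeasure μ]
    {f : X → ℝ≥0∞} {c : ℝ≥0∞} (h : ∀ᵐ x ∂μ, c ≤ f x) : c ≤ ∫⁻ x, f x ∂μ := by
  simpa using lintegral_mono_ae h

lemma lint_le {X : Type} [MeasurableSpace X] {μ : Measure X} [IsProbabilityMeasure μ]
    {f : X → ℝ≥0∞} {c : ℝ≥0∞} (h : ∀ᵐ x ∂μ, f x ≤ c) : ∫⁻ x, f x ∂μ ≤ c := by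
  simpa using lintegral_mono_ae h

end Pool.Agent.H.MP_467638_an
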